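import Pool.Agent.Lib.MP_d0f9e0_co.FN.Small

/-!
# Weyl and Heisenberg covariant form

From `Dat ℂ d` with the absolute value condition we get a fiducial vector for the cyclic Weyl and
Heisenberg group with the standard shift `X` and clock `Z`: a unit vector `psi` with
`|<psi, X^a Z^b psi>| ^ 2 = 1 / (d + 1)` for all `(a, b) ≠ (0, 0)`.
-/

set_option autoImplicit false

open scoped BigOperators ComplexConjugate Matrix

namespace Pool.Agent.Lib.MP_d0f9e0_co.FN

variable {d : ℕ} [NeZero d]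

/-- A fiducial vector, written with functions on `ZMod d` and the standard character
`x ↦ exp (2 π i x / d)`. -/
def HasFid (d : ℕ) [NeZero d] : Prop :=
  ∃ psi : ZMod d → ℂ, (∑ i, ‖psi i‖ ^ 2 = 1) ∧
    ∀ a b : ZMod d, ¬ (a = 0 ∧ b = 0) →
      ‖∑ i, conj (psi i) * (ZMod.stdAddChar (N := d) (b * (i - a)) * psi (i - a))‖ ^ 2
        = 1 / ((d : ℝ) + 1)

/-- Every additive character of `ZMod d` is a shift of the standard one. -/
theorem exists_shift (e : AddChar (ZMod d) ℂ) :
    ∃ r : ZMod d, ∀ x, e x = ZMod.stdAddChar (N := d) (r * x) := by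
  have hinj : Function.Injective fun r : ZMod d => (ZMod.stdAddChar (N := d)).mulShift r :=
    AddChar.to_mulShift_inj_of_isPrimitive (ZMod.isPrimitive_stdAddChar d)
  have hbij : Function.Bijective fun r : ZMod d => (ZMod.stdAddChar (N := d)).mulShift r := by
    rw [Fintype.bijective_iff_injective_and_card]
    exact ⟨hinj, (AddChar.card_eq (α := ZMod d)).symm⟩
  obtain ⟨r, hr⟩ := hbij.2 e
  exact ⟨r, fun x => by rw [← hr]; rfl⟩

/-- For a primitive character the shift is invertible. -/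
theorem exists_inverse_shift (e : AddChar (ZMod d) ℂ) (he : e.IsPrimitive) :
    ∃ s : ZMod d, (∀ x, ZMod.stdAddChar (N := d) x = e (s * x)) ∧ ∀ b, s * b = 0 → b = 0 := by
  have hinj : Function.Injective fun r : ZMod d => e.mulShift r :=
    AddChar.to_mulShift_inj_of_isPrimitive he
  have hbij : Function.Bijective fun r : ZMod d => e.mulShift r := by
    rw [Fintype.bijective_iff_injective_and_card]
    exact ⟨hinj, (AddChar.card_eq (α := ZMod d)).symm⟩
  obtain ⟨s, hs⟩ := hbij.2 (ZMod.stdAddChar (N := d))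
  have hs' : ∀ x, ZMod.stdAddChar (N := d) x = e (s * x) := fun x => by rw [← hs]; rfl
  refine ⟨s, hs', fun b hb => ?_⟩
  by_contra hb0
  apply ZMod.isPrimitive_stdAddChar d hb0
  ext x
  rw [AddChar.mulShift_apply, hs', AddChar.one_apply, ← mul_assoc, hb, zero_mul,
    AddChar.map_zero_eq_one]

/-- The fiducial vector over `ℂ`. -/
theorem Dat.hasFid (D : Dat ℂ d) (hN : ∀ k, k ≠ 0 → ‖D.a k‖ ^ 2 = 1 / ((d : ℝ) + 1)) :
    HasFid d := by
  classical
  obtain ⟨u, hu1, hu⟩ := exists_vec D.Q D.Q_mul (D.Q_herm hN) D.Q_trace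
  obtain ⟨s, hs, hs0⟩ := exists_inverse_shift D.e D.he
  refine ⟨u, hu1, fun a b hab => ?_⟩
  have h1 := D.inner_orb u hu 0 (a, s * b)
  have h2 : ∑ i, conj (u i) * (ZMod.stdAddChar (N := d) (b * (i - a)) * u (i - a))
      = ∑ i, conj (orb D.e u 0 i) * orb D.e u (a, s * b) i := by
    refine Finset.sum_congr rfl fun i _ => ?_
    simp only [orb, Prod.fst_zero, Prod.snd_zero, sub_zero, zero_mul, AddChar.map_zero_eq_one,
      one_mul]
    rw [hs, mul_assoc s b]
  have hne : (0 : ZMod d × ZMod d) - (a, s * b) ≠ 0 := by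
    intro h
    have h3 : ((a, s * b) : ZMod d × ZMod d) = 0 := by
      rw [zero_sub, neg_eq_zero] at h
      exact h
    have h4 : a = 0 := congrArg Prod.fst h3
    have h5 : s * b = 0 := congrArg Prod.snd h3
    exact hab ⟨h4, hs0 b h5⟩
  rw [h2, h1, norm_mul, AddChar.norm_apply, mul_one]
  exact hN _ hne

/-- The fiducial vector with a field `M` and a homomorphism to `ℂ`. -/
theorem Dat.hasFid_of_hom {M : Type*} [Field M] (D : Dat M d) (sig : M →+* ℂ)
    (hN : ∀ k, k ≠ 0 → ‖sig (D.a k)‖ ^ 2 = 1 / ((d : ℝ) + 1)) : HasFid d :=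
  (D.map sig).hasFid hN

theorem hasFid_one : HasFid 1 := by
  refine ⟨fun _ => 1, by simp, fun a b hab => ?_⟩
  exact absurd ⟨Subsingleton.elim (α := Fin 1) a 0, Subsingleton.elim (α := Fin 1) b 0⟩ hab

private theorem two_cases' (x : ZMod 2) : x = 0 ∨ x = 1 := by
  revert x; decide

theorem dat2_norm : ∀ k, k ≠ 0 → ‖dat2.a k‖ ^ 2 = 1 / (((2 : ℕ) : ℝ) + 1) := by
  rintro ⟨l1, l2⟩ hk
  have h3 : ‖((Real.sqrt 3 : ℝ) : ℂ)‖ ^ 2 = 3 := by
    rw [Complex.norm_real, Real.norm_eq_abs, sq_abs, Real.sq_sqrt (by norm_num)]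
  have hd1 : ((1, 1) : ZMod 2 × ZMod 2) ≠ (0, 0) := by decide
  have hd2 : ((0, 1) : ZMod 2 × ZMod 2) ≠ (0, 0) := by decide
  have hd3 : ((0, 1) : ZMod 2 × ZMod 2) ≠ (1, 1) := by decide
  have hd4 : ((1, 0) : ZMod 2 × ZMod 2) ≠ (0, 0) := by decide
  have hd5 : ((1, 0) : ZMod 2 × ZMod 2) ≠ (1, 1) := by decide
  change ‖a2 (l1, l2)‖ ^ 2 = _
  rcases two_cases' l1 with rfl | rfl <;> rcases two_cases' l2 with rfl | rfl
  · exact absurd rfl hk
  · rw [a2, if_neg hd2, if_neg hd3, norm_div, div_pow, h3]; norm_num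
  · rw [a2, if_neg hd4, if_neg hd5, norm_div, div_pow, h3]; norm_num
  · rw [a2, if_neg hd1, if_pos rfl, norm_div, div_pow, h3]; norm_num

theorem hasFid_two : HasFid 2 := dat2.hasFid dat2_norm

theorem hasFid_three : HasFid 3 := by
  have h3 : (3 : ZMod 3) = 0 := by decide
  refine (dat3 (ZMod.stdAddChar (N := 3)) (ZMod.isPrimitive_stdAddChar 3) h3 rfl).hasFid
    fun k hk => ?_
  change ‖a3 (ZMod.stdAddChar (N := 3)) k‖ ^ 2 = _
  unfold a3
  rw [if_neg hk, mul_zero, zero_sub, norm_neg, norm_mul, AddChar.norm_apply]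
  norm_num

/-- All dimensions from dimensions at least four. -/
theorem fid_all_of_four (h : ∀ (d : ℕ) [NeZero d], 4 ≤ d → HasFid d) (d : ℕ) [NeZero d] :
    HasFid d := by
  rcases Nat.lt_or_ge d 4 with h4 | h4
  · have hd : 1 ≤ d := Nat.one_le_iff_ne_zero.mpr (NeZero.ne d)
    have h123 : d = 1 ∨ d = 2 ∨ d = 3 := by omega
    rcases h123 with rfl | rfl | rfl
    · exact hasFid_one
    · exact hasFid_two
    · exact hasFid_three
  · exact h d h4

/-- A fiducial vector gives the maximal equiangular tight frame. -/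
theorem HasFid.hasETF (h : HasFid d) : HasETF d := by
  classical
  obtain ⟨u, hu1, hu⟩ := h
  set e := ZMod.stdAddChar (N := d) with he
  have hnorm : ∀ x : ZMod d, ‖e x‖ = 1 := fun x => AddChar.norm_apply e x
  have hcard : Fintype.card (ZMod d × ZMod d) = d ^ 2 := by
    rw [Fintype.card_prod, ZMod.card, sq]
  let f : Fin (d ^ 2) ≃ ZMod d × ZMod d := (Fintype.equivFinOfCardEq hcard).symm
  let g : Fin d ≃ ZMod d := (Fintype.equivFinOfCardEq (ZMod.card d)).symm
  have key : ∀ k l : ZMod d × ZMod d, k ≠ l →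
      ‖∑ i, conj (orb e u k i) * orb e u l i‖ ^ 2 = 1 / ((d : ℝ) + 1) := fun k l hkl => by
    have h1 : ∑ i, conj (orb e u k i) * orb e u l i
        = e (l.2 * (k.1 - l.1)) * ∑ i, conj (u i) * (e ((l.2 - k.2) * (i - (l.1 - k.1)))
            * u (i - (l.1 - k.1))) * e ((l.2 - k.2) * (l.1 - k.1)) := by
      rw [Finset.mul_sum, ← Equiv.sum_comp (Equiv.addRight k.1)]
      refine Finset.sum_congr rfl fun i _ => ?_
      have e1 : i + k.1 - k.1 = i := by abel
      have e2 : i + k.1 - l.1 = i - (l.1 - k.1) := by abel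
      simp only [orb, Equiv.coe_addRight, e1, e2, map_mul]
      rw [← AddChar.map_neg_eq_conj]
      have h2 : e (-(k.2 * i)) * e (l.2 * (i - (l.1 - k.1)))
          = e (l.2 * (k.1 - l.1)) * e ((l.2 - k.2) * (i - (l.1 - k.1)))
            * e ((l.2 - k.2) * (l.1 - k.1)) := by
        rw [← AddChar.map_add_eq_mul, ← AddChar.map_add_eq_mul, ← AddChar.map_add_eq_mul]
        congr 1
        ring
      linear_combination (conj (u i) * u (i - (l.1 - k.1))) * h2
    rw [h1, ← Finset.sum_mul, norm_mul, norm_mul, hnorm, hnorm, one_mul, mul_one]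
    refine hu _ _ fun hab => hkl ?_
    ext
    · exact (sub_eq_zero.mp hab.1).symm
    · exact (sub_eq_zero.mp hab.2).symm
  have hin : ∀ i j, inner ℂ (WithLp.toLp 2 fun t => orb e u (f i) (g t) :
        EuclideanSpace ℂ (Fin d)) (WithLp.toLp 2 fun t => orb e u (f j) (g t))
      = ∑ t, conj (orb e u (f i) t) * orb e u (f j) t := fun i j => by
    rw [← Equiv.sum_comp g, PiLp.inner_apply]
    refine Finset.sum_congr rfl fun t _ => ?_
    simp only [RCLike.inner_apply]
    ring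
  refine ⟨fun i => WithLp.toLp 2 fun t => orb e u (f i) (g t), fun i => ?_, fun i j hij => ?_⟩
  · rw [EuclideanSpace.norm_eq]
    have h1 : ∑ t, ‖(WithLp.toLp 2 fun t => orb e u (f i) (g t) :
        EuclideanSpace ℂ (Fin d)) t‖ ^ 2 = 1 := by
      rw [← hu1]
      have h2 : ∀ t, ‖(WithLp.toLp 2 fun t => orb e u (f i) (g t) :
          EuclideanSpace ℂ (Fin d)) t‖ ^ 2 = ‖u (g t - (f i).1)‖ ^ 2 := fun t => by
        simp only [orb, norm_mul, hnorm, one_mul]
      rw [Finset.sum_congr rfl fun t _ => h2 t, Equiv.sum_comp g fun x => ‖u (x - (f i).1)‖ ^ 2]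
      exact Equiv.sum_comp (Equiv.subRight (f i).1) fun x => ‖u x‖ ^ 2
    rw [h1, Real.sqrt_one]
  · rw [hin i j]
    have h1 := key _ _ fun h => hij (f.injective h)
    have h2 : (0 : ℝ) < (d : ℝ) + 1 := by positivity
    have h3 : (1 / Real.sqrt ((d : ℝ) + 1)) ^ 2 = 1 / ((d : ℝ) + 1) := by
      rw [div_pow, Real.sq_sqrt h2.le, one_pow]
    exact (sq_eq_sq₀ (norm_nonneg _) (by positivity)).mp (h1.trans h3.symm)

/-! ### The matrix form -/

/-- The shift `X |j> = |j + 1>`. -/
noncomputable def shiftM (d : ℕ) [NeZero d] : Matrix (ZMod d) (ZMod d) ℂ :=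
  Matrix.of fun i j => if i = j + 1 then 1 else 0

/-- The clock `Z |j> = exp (2 π i j / d) |j>`. -/
noncomputable def clockM (d : ℕ) [NeZero d] : Matrix (ZMod d) (ZMod d) ℂ :=
  Matrix.diagonal fun j => Complex.exp (2 * Real.pi * Complex.I / d) ^ j.val

theorem clock_eq (j : ZMod d) :
    Complex.exp (2 * Real.pi * Complex.I / d) ^ j.val = ZMod.stdAddChar (N := d) j := by
  have h := ZMod.stdAddChar_coe (N := d) (j.val : ℤ)
  have h2 : (((j.val : ℤ)) : ZMod d) = j := by
    rw [Int.cast_natCast, ZMod.natCast_zmod_val]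
  rw [h2] at h
  rw [h, ← Complex.exp_nat_mul]
  congr 1
  push_cast
  ring

theorem shiftM_pow (a : ℕ) :
    shiftM d ^ a = Matrix.of fun i j : ZMod d => if i = j + (a : ZMod d) then (1 : ℂ) else 0 := by
  induction a with
  | zero =>
    ext i j
    simp [Matrix.one_apply]
  | succ a ih =>
    rw [pow_succ, ih]
    ext i j
    rw [Matrix.mul_apply]
    simp only [Matrix.of_apply, shiftM]
    rw [Finset.sum_eq_single (j + 1)]
    · rw [if_pos rfl, mul_one]
      congr 1
      rw [Nat.cast_succ, eq_iff_iff]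
      constructor <;> intro h <;> rw [h] <;> ring
    · intro m _ hm
      rw [if_neg hm, mul_zero]
    · intro h
      exact absurd (Finset.mem_univ _) h

theorem clockM_pow (b : ℕ) :
    clockM d ^ b = Matrix.diagonal fun j : ZMod d => ZMod.stdAddChar (N := d) ((b : ZMod d) * j) := by
  unfold clockM
  rw [Matrix.diagonal_pow]
  congr 1
  funext j
  rw [Pi.pow_apply, clock_eq, ← AddChar.map_nsmul_eq_pow, nsmul_eq_mul]

theorem weyl_mulVec (a b : ℕ) (psi : ZMod d → ℂ) (i : ZMod d) :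
    ((shiftM d ^ a * clockM d ^ b) *ᵥ psi) i
      = ZMod.stdAddChar (N := d) (b * (i - a)) * psi (i - a) := by
  rw [← Matrix.mulVec_mulVec, shiftM_pow, clockM_pow]
  simp only [Matrix.mulVec, dotProduct, Matrix.of_apply]
  rw [Finset.sum_eq_single (i - (a : ZMod d))]
  · rw [if_pos (by ring), one_mul]
    rw [Finset.sum_eq_single (i - (a : ZMod d))]
    · rw [Matrix.diagonal_apply_eq]
    · intro m _ hm
      rw [Matrix.diagonal_apply_ne _ (Ne.symm hm), zero_mul]
    · intro h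
      exact absurd (Finset.mem_univ _) h
  · intro m _ hm
    rw [if_neg (fun h => hm (by rw [h]; ring)), zero_mul]
  · intro h
    exact absurd (Finset.mem_univ _) h

/-- The literal form: a unit vector of `ℂ ^ d` with all overlaps `1 / (d + 1)` for the monomials
`X ^ a * Z ^ b` in the shift and clock matrices. -/
theorem HasFid.matrix (h : HasFid d) :
    ∃ psi : EuclideanSpace ℂ (ZMod d), ‖psi‖ = 1 ∧
      ∀ a b : ℕ, a < d → b < d → ¬ (a = 0 ∧ b = 0) →
        ‖inner ℂ psi (Matrix.toEuclideanLin (shiftM d ^ a * clockM d ^ b) psi)‖ ^ 2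
          = 1 / ((d : ℝ) + 1) := by
  obtain ⟨u, hu1, hu⟩ := h
  refine ⟨WithLp.toLp 2 u, ?_, fun a b ha hb hab => ?_⟩
  · rw [EuclideanSpace.norm_eq]
    have h1 : ∑ i, ‖(WithLp.toLp 2 u : EuclideanSpace ℂ (ZMod d)) i‖ ^ 2 = 1 := hu1
    rw [h1, Real.sqrt_one]
  · have h1 : inner ℂ (WithLp.toLp 2 u : EuclideanSpace ℂ (ZMod d))
        (Matrix.toEuclideanLin (shiftM d ^ a * clockM d ^ b) (WithLp.toLp 2 u))
        = ∑ i, conj (u i) * (ZMod.stdAddChar (N := d) ((b : ZMod d) * (i - (a : ZMod d)))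
            * u (i - (a : ZMod d))) := by
      rw [PiLp.inner_apply]
      refine Finset.sum_congr rfl fun i _ => ?_
      rw [RCLike.inner_apply, mul_comm]
      congr 1
      rw [← weyl_mulVec]
      rfl
    rw [h1]
    refine hu _ _ fun h => hab ⟨?_, ?_⟩
    · have := (ZMod.natCast_eq_zero_iff a d).mp h.1
      exact Nat.eq_zero_of_dvd_of_lt this ha
    · have := (ZMod.natCast_eq_zero_iff b d).mp h.2
      exact Nat.eq_zero_of_dvd_of_lt this hb

end Pool.Agent.Lib.MP_d0f9e0_co.FN
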