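import Pool.Agent.Lib.MP_d0f9e0_co.FN.Core

/-!
# Dimensions one, two and three, and the frozen statement from dimensions at least four
-/

set_option autoImplicit false

open scoped BigOperators ComplexConjugate Matrix

namespace Pool.Agent.Lib.MP_d0f9e0_co.FN

theorem hasETF_one : HasETF 1 := by
  refine ⟨fun _ => WithLp.toLp 2 fun _ => 1, fun i => ?_, fun i j hij => ?_⟩
  · rw [EuclideanSpace.norm_eq]
    simp
  · exact absurd (Subsingleton.elim (α := Fin 1) i j) hij

private theorem two_cases (x : ZMod 2) : x = 0 ∨ x = 1 := by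
  revert x; decide

/-- Coefficients in dimension two. -/
noncomputable def a2 (k : ZMod 2 × ZMod 2) : ℂ :=
  if k = (0, 0) then 1 else if k = (1, 1) then Complex.I / (Real.sqrt 3 : ℂ)
    else 1 / (Real.sqrt 3 : ℂ)

private theorem s3 : ((Real.sqrt 3 : ℝ) : ℂ) ^ 2 = 3 := by
  rw [← Complex.ofReal_pow, Real.sq_sqrt (by norm_num)]
  norm_num

private theorem s3ne : ((Real.sqrt 3 : ℝ) : ℂ) ≠ 0 := by
  intro h
  have := s3
  rw [h] at this
  norm_num at this

private theorem a2_00 : a2 (0, 0) = 1 := by simp [a2]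
private theorem a2_z : a2 0 = 1 := a2_00
private theorem a2_11 : a2 (1, 1) = Complex.I / (Real.sqrt 3 : ℂ) := by
  have h : ((1, 1) : ZMod 2 × ZMod 2) ≠ (0, 0) := by decide
  simp [a2]
private theorem a2_01 : a2 (0, 1) = 1 / (Real.sqrt 3 : ℂ) := by
  have h : ((0, 1) : ZMod 2 × ZMod 2) ≠ (0, 0) := by decide
  have h' : ((0, 1) : ZMod 2 × ZMod 2) ≠ (1, 1) := by decide
  simp [a2]
private theorem a2_10 : a2 (1, 0) = 1 / (Real.sqrt 3 : ℂ) := by
  have h : ((1, 0) : ZMod 2 × ZMod 2) ≠ (0, 0) := by decide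
  have h' : ((1, 0) : ZMod 2 × ZMod 2) ≠ (1, 1) := by decide
  simp [a2]

private theorem e2_one : (ZMod.stdAddChar (N := 2)) 1 = (-1 : ℂ) := by
  have h := ZMod.stdAddChar_coe (N := 2) 1
  simp only [Int.cast_one, mul_one, Nat.cast_ofNat] at h
  rw [h]
  have : (2 : ℂ) * Real.pi * Complex.I / 2 = Real.pi * Complex.I := by ring
  rw [this, Complex.exp_pi_mul_I]

private theorem neg1 : (-1 : ZMod 2) = 1 := by decide
private theorem oneone : (1 + 1 : ZMod 2) = 0 := by decide

/-- The data in dimension two. -/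
noncomputable def dat2 : Dat ℂ 2 where
  e := ZMod.stdAddChar
  he := ZMod.isPrimitive_stdAddChar 2
  a := a2
  h0 := a2_00
  hconv := by
    rintro ⟨l1, l2⟩
    rw [Fintype.sum_prod_type]
    have h2 : ∀ f : ZMod 2 → ℂ, ∑ x, f x = f 0 + f 1 := fun f => Fin.sum_univ_two f
    simp only [h2]
    rcases two_cases l1 with rfl | rfl <;> rcases two_cases l2 with rfl | rfl <;>
      simp only [Prod.mk_sub_mk, sub_zero, zero_sub, sub_self, mul_zero, mul_one,
        AddChar.map_zero_eq_one, neg1, a2_00, a2_z, a2_01, a2_10, a2_11, e2_one, Nat.cast_ofNat]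
    · have := s3
      have := s3ne
      have hI := Complex.I_sq
      field_simp
      rw [hI, s3]
      ring
    · ring
    · ring
    · ring
  hinv := by
    rintro ⟨l1, l2⟩ hk
    rcases two_cases l1 with rfl | rfl <;> rcases two_cases l2 with rfl | rfl
    · exact absurd rfl hk
    · have := s3ne
      simp only [Prod.neg_mk, neg_zero, neg1, a2_01, zero_mul, AddChar.map_zero_eq_one,
        Nat.cast_ofNat]
      field_simp
      rw [s3]; norm_num
    · have := s3ne
      simp only [Prod.neg_mk, neg_zero, neg1, a2_10, mul_zero, AddChar.map_zero_eq_one,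
        Nat.cast_ofNat]
      field_simp
      rw [s3]; norm_num
    · have := s3ne
      simp only [Prod.neg_mk, neg1, a2_11, mul_one, e2_one, Nat.cast_ofNat]
      field_simp
      rw [s3, Complex.I_sq]; norm_num

theorem hasETF_two : HasETF 2 := by
  refine dat2.hasETF fun k hk => ?_
  obtain ⟨l1, l2⟩ := k
  have h3 : ‖((Real.sqrt 3 : ℝ) : ℂ)‖ ^ 2 = 3 := by
    rw [Complex.norm_real, Real.norm_eq_abs, sq_abs, Real.sq_sqrt (by norm_num)]
  change ‖a2 (l1, l2)‖ ^ 2 = _
  rcases two_cases l1 with rfl | rfl <;> rcases two_cases l2 with rfl | rfl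
  · exact absurd rfl hk
  · rw [a2_01, norm_div, div_pow, h3]; norm_num
  · rw [a2_10, norm_div, div_pow, h3]; norm_num
  · rw [a2_11, norm_div, div_pow, h3]; norm_num

section Three

variable {d : ℕ} [NeZero d] (e : AddChar (ZMod d) ℂ)

/-- Coefficients in dimension three. -/
noncomputable def a3 (k : ZMod d × ZMod d) : ℂ :=
  (3 / 2) * (if k = 0 then 1 else 0) - (1 / 2) * e (-(k.1 * k.2))

omit [NeZero d] in
theorem a3_gg (h3 : (3 : ZMod d) = 0) (l k : ZMod d × ZMod d) : e (-(k.1 * k.2))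
    * e (-((l - k).1 * (l - k).2)) * e (k.2 * (l.1 - k.1))
    = e (-(l.1 * l.2)) * (e (k.1 * l.2) * e (k.2 * (2 * l.1))) := by
  simp only [← AddChar.map_add_eq_mul]
  congr 1
  simp only [Prod.fst_sub, Prod.snd_sub]
  linear_combination (-(k.1 * k.2)) * h3

theorem a3_sum (he : e.IsPrimitive) (h3 : (3 : ZMod d) = 0) (hd : d = 3) (l : ZMod d × ZMod d) :
    ∑ k : ZMod d × ZMod d, e (-(k.1 * k.2))
      * e (-((l - k).1 * (l - k).2)) * e (k.2 * (l.1 - k.1))
      = 9 * (if l = 0 then 1 else 0) := by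
  have hdC : (d : ℂ) = 3 := by rw [hd]; norm_num
  have hs : ∑ x : ZMod d, ∑ y : ZMod d, e ((x, y).1 * l.2) * e ((x, y).2 * (2 * l.1))
      = (∑ x : ZMod d, e (x * l.2)) * ∑ y : ZMod d, e (y * (2 * l.1)) := by
    rw [Finset.sum_mul]
    refine Finset.sum_congr rfl fun x _ => ?_
    rw [Finset.mul_sum]
  have hA : ∀ t : ZMod d, ∑ x : ZMod d, e (x * t) = if t = 0 then (d : ℂ) else 0 := fun t => by
    rw [AddChar.sum_mulShift _ he, ZMod.card]
    split_ifs <;> simp
  rw [Finset.sum_congr rfl fun k _ => a3_gg e h3 l k, ← Finset.mul_sum, Fintype.sum_prod_type, hs,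
    hA, hA]
  by_cases h : l = 0
  · have h1 : l.1 = 0 := congrArg Prod.fst h
    have h2 : l.2 = 0 := congrArg Prod.snd h
    have h4 : 2 * l.1 = 0 := by rw [h1, mul_zero]
    rw [if_pos h2, if_pos h4, if_pos h, h1, zero_mul, neg_zero, AddChar.map_zero_eq_one, hdC]
    norm_num
  · rw [if_neg h, mul_zero]
    by_cases h2 : l.2 = 0
    · have h1 : l.1 ≠ 0 := fun h1 => h (Prod.ext h1 h2)
      have h1' : 2 * l.1 ≠ 0 := fun h => h1 (by linear_combination l.1 * h3 - h)
      simp [h1']
    · simp [h2]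

omit [NeZero d] in
theorem a3_exp (l k : ZMod d × ZMod d) :
    a3 e k * a3 e (l - k) * e (k.2 * (l.1 - k.1))
    = (if k = 0 then (9 / 4) * (if l = 0 then (1 : ℂ) else 0)
        - (3 / 4) * e (-(l.1 * l.2)) else 0)
      - (if k = l then (3 / 4) * e (-(l.1 * l.2)) else 0)
      + (1 / 4) * (e (-(k.1 * k.2)) * e (-((l - k).1 * (l - k).2)) * e (k.2 * (l.1 - k.1))) := by
  unfold a3
  by_cases h : k = 0
  · subst h
    by_cases h' : (0 : ZMod d × ZMod d) = l
    · subst h'
      simp
      norm_num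
    · have h'' : ¬ (l = 0) := fun h => h' h.symm
      simp [h', h'']
      ring
  · by_cases h' : k = l
    · subst h'
      simp [h]
      ring
    · have h'' : ¬ (l - k = 0) := fun h => h' (sub_eq_zero.mp h).symm
      rw [if_neg h, if_neg h'', if_neg h, if_neg h']
      ring

/-- The data in dimension three. -/
noncomputable def dat3 (he : e.IsPrimitive) (h3 : (3 : ZMod d) = 0) (hd : d = 3) : Dat ℂ d where
  e := e
  he := he
  a := a3 e
  h0 := by
    unfold a3
    simp
    norm_num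
  hconv := by
    intro l
    rw [Finset.sum_congr rfl fun k _ => a3_exp e l k, Finset.sum_add_distrib,
      Finset.sum_sub_distrib, ← Finset.mul_sum, a3_sum e he h3 hd, Finset.sum_ite_eq',
      Finset.sum_ite_eq', if_pos (Finset.mem_univ _), if_pos (Finset.mem_univ _)]
    have hdC : (d : ℂ) = 3 := by rw [hd]; norm_num
    rw [hdC]
    unfold a3
    ring
  hinv := by
    intro k hk
    have hk' : -k ≠ 0 := neg_ne_zero.mpr hk
    unfold a3
    rw [if_neg hk, if_neg hk']
    have h1 : e (-(k.1 * k.2)) * e (-((-k).1 * (-k).2)) = e (k.1 * k.2) := by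
      rw [← AddChar.map_add_eq_mul]
      congr 1
      simp only [Prod.fst_neg, Prod.snd_neg]
      linear_combination (-(k.1 * k.2)) * h3
    have hdC : (d : ℂ) = 3 := by rw [hd]; norm_num
    rw [hdC]
    linear_combination h1

end Three

theorem hasETF_three : HasETF 3 := by
  have h3 : (3 : ZMod 3) = 0 := by decide
  refine (dat3 (ZMod.stdAddChar (N := 3)) (ZMod.isPrimitive_stdAddChar 3) h3 rfl).hasETF
    fun k hk => ?_
  change ‖a3 (ZMod.stdAddChar (N := 3)) k‖ ^ 2 = _
  unfold a3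
  rw [if_neg hk, mul_zero, zero_sub, norm_neg, norm_mul, AddChar.norm_apply]
  norm_num

/-- The frozen statement from all dimensions at least four. -/
theorem all_of_four (h : ∀ d : ℕ, 4 ≤ d → HasETF d) :
    ∀ d : ℕ, 1 ≤ d →
      ∃ v : Fin (d ^ 2) → EuclideanSpace ℂ (Fin d),
        (∀ i, ‖v i‖ = 1) ∧
        (∀ i j, i ≠ j → ‖inner ℂ (v i) (v j)‖ = 1 / Real.sqrt ((d : ℝ) + 1)) := by
  intro d hd
  rcases Nat.lt_or_ge d 4 with h4 | h4
  · interval_cases d
    · exact hasETF_one
    · exact hasETF_two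
    · exact hasETF_three
  · exact h d h4

end Pool.Agent.Lib.MP_d0f9e0_co.FN
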