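import Pool.Agent.Lib.MP_d0f9e0_co.FN.Ghost
import Pool.Agent.Lib.MP_d0f9e0_co.FN.Small

/-!
# The ghost statement in dimensions one, two and three
-/

set_option autoImplicit false

open scoped BigOperators ComplexConjugate Matrix

namespace Pool.Agent.Lib.MP_d0f9e0_co.FN

theorem hasGhost_one : HasGhost 1 := by
  refine ⟨fun _ => 1, fun i => one_mul _, fun i => ?_, fun i j hij => ?_⟩
  · rw [Matrix.rank_one, Fintype.card_fin]
  · exact absurd (Subsingleton.elim (α := Fin 1) i j) hij

theorem hasGhost_two : HasGhost 2 := dat2.hasGhost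

theorem hasGhost_three : HasGhost 3 :=
  (dat3 (ZMod.stdAddChar (N := 3)) (ZMod.isPrimitive_stdAddChar 3) (by decide) rfl).hasGhost

theorem ghost_of_four (h : ∀ d : ℕ, 4 ≤ d → HasGhost d) : ∀ d : ℕ, 1 ≤ d → HasGhost d := by
  intro d hd
  rcases Nat.lt_or_ge d 4 with h4 | h4
  · interval_cases d
    · exact hasGhost_one
    · exact hasGhost_two
    · exact hasGhost_three
  · exact h d h4

end Pool.Agent.Lib.MP_d0f9e0_co.FN
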