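import Pool.Agent.Lib.MP_d0f9e0_co.AV12.Cor
import Pool.Agent.Lib.MP_d0f9e0_co.FN.Fid
import Pool.Agent.Lib.MP_d0f9e0_co.FN.GhostSmall

/-!
# Covariant fiducial vectors and ghosts from near group data

The same as the files `Fin`, `Conc` and `Cor` of `AV12` (helper12), with the conclusions `HasFid d`
(a fiducial vector for the standard shift and clock) and `HasGhost d` (no field homomorphism).
-/

set_option autoImplicit false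
set_option linter.unusedSectionVars false

open scoped BigOperators

namespace Pool.Agent.Lib.MP_d0f9e0_co.AV12

open Pool.MP_d0f9e0_co.SH Pool.MP_d0f9e0_co.GH Pool.Agent.Lib.MP_d0f9e0_co.FN

section inn

variable {d : ℕ} [NeZero d] {G : Type*} [AddCommGroup G] [Fintype G] [DecidableEq G]

/-- A fiducial vector in dimension `d`. -/
theorem In.hasFid (D : In ℂ d G) (he : D.e.IsPrimitive)
    (hkap : D.kap = D.hh - D.hh⁻¹)
    (hsum : D.hh + D.hh⁻¹ = ((d : ℂ) - 2) * (Real.sqrt ((d : ℝ) + 1) : ℝ))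
    (sig : ℂ →+* ℂ) (hsig : ∀ k, k ≠ 0 → ‖sig (D.E (D.io k) / D.z0)‖ = 1) : HasFid d := by
  obtain ⟨tau, h2, h⟩ := exists_tau D.e
  have hpos : (0 : ℝ) < (d : ℝ) + 1 := by positivity
  have hs : ((Real.sqrt ((d : ℝ) + 1) : ℝ) : ℂ) ^ 2 = (d : ℂ) + 1 := by
    rw [← Complex.ofReal_pow, Real.sq_sqrt hpos.le]
    push_cast
    rfl
  have hs0 : ((Real.sqrt ((d : ℝ) + 1) : ℝ) : ℂ) ≠ 0 := by
    have := Real.sqrt_pos.2 hpos
    exact_mod_cast this.ne'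
  refine (D.dat he tau _ h2 h hs hs0 hkap hsum).hasFid_of_hom sig fun k hk => ?_
  rw [D.dat_a he tau _ h2 h hs hs0 hkap hsum k hk]
  rw [map_mul, map_mul, map_neg, map_inv₀, map_inv₀, norm_mul, norm_mul, norm_neg, norm_inv,
    norm_inv, hsig k hk]
  have h3 : ‖sig (tq tau (k.1 - k.2))‖ = 1 := by
    have h4 : (sig (tq tau (k.1 - k.2))) ^ (d ^ 2) = 1 := by
      rw [← map_pow]
      unfold tq
      rw [← pow_mul, mul_comm, pow_mul, h, one_pow, map_one]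
    exact norm_of_pow_eq_one (pow_ne_zero 2 (NeZero.ne d)) h4
  have h5 : ‖sig ((Real.sqrt ((d : ℝ) + 1) : ℝ) : ℂ)‖ ^ 2 = (d : ℝ) + 1 := by
    rw [← norm_pow, ← map_pow, hs, map_add, map_natCast, map_one]
    have : ((d : ℂ) + 1) = (((d : ℝ) + 1 : ℝ) : ℂ) := by push_cast; rfl
    rw [this, Complex.norm_real, Real.norm_of_nonneg hpos.le]
  rw [h3, inv_one, mul_one, mul_one, inv_pow, h5, one_div]

/-- A ghost in dimension `d`. -/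
theorem In.hasGhost (D : In ℂ d G) (he : D.e.IsPrimitive)
    (hkap : D.kap = D.hh - D.hh⁻¹)
    (hsum : D.hh + D.hh⁻¹ = ((d : ℂ) - 2) * (Real.sqrt ((d : ℝ) + 1) : ℝ)) : HasGhost d := by
  obtain ⟨tau, h2, h⟩ := exists_tau D.e
  have hpos : (0 : ℝ) < (d : ℝ) + 1 := by positivity
  have hs : ((Real.sqrt ((d : ℝ) + 1) : ℝ) : ℂ) ^ 2 = (d : ℂ) + 1 := by
    rw [← Complex.ofReal_pow, Real.sq_sqrt hpos.le]
    push_cast
    rfl
  have hs0 : ((Real.sqrt ((d : ℝ) + 1) : ℝ) : ℂ) ≠ 0 := by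
    have := Real.sqrt_pos.2 hpos
    exact_mod_cast this.ne'
  exact (D.dat he tau _ h2 h hs hs0 hkap hsum).hasGhost

end inn

section abs

variable {d : ℕ} [NeZero d] [Fintype (Fx (A3 d) Zl)] {η : ℝ} {c : Fx (A3 d) Zl → ℝ}
  {z : Fx (A3 d) Zl → ℂ}

/-- From near group data and a field homomorphism to a fiducial vector. -/
theorem hasFid_of_NG (hd4 : 4 ≤ d) (ng : NG η (ps d) c z) (hc : ∀ x, c (LG d x) = c x)
    (hz : ∀ x, z (LG d x) = z x)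
    (hη : η + η⁻¹ = ((d : ℝ) - 1) ^ 3 - 3 * ((d : ℝ) - 1)) (sig : ℂ →+* ℂ)
    (hsig : ∀ x, x ≠ 0 → ‖sig (c x : ℂ)‖ = 1) : HasFid d := by
  classical
  have hη0 : 0 < η := lt_trans one_pos ng.one_lt
  have hsq := Real.sqrt_pos.2 hη0
  have hd2 : (0 : ℝ) < (d : ℝ) - 2 := by
    have : (4 : ℝ) ≤ d := by exact_mod_cast hd4
    linarith
  have hsum : Real.sqrt η + (Real.sqrt η)⁻¹ = ((d : ℝ) - 2) * Real.sqrt ((d : ℝ) + 1) := by
    have h1 : (Real.sqrt η + (Real.sqrt η)⁻¹) ^ 2 = (((d : ℝ) - 2) * Real.sqrt ((d : ℝ) + 1)) ^ 2 := by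
      have h2 : Real.sqrt η ^ 2 = η := Real.sq_sqrt hη0.le
      have h3 : Real.sqrt ((d : ℝ) + 1) ^ 2 = (d : ℝ) + 1 := Real.sq_sqrt (by positivity)
      rw [mul_pow, h3, add_sq, h2, inv_pow, h2]
      have h4 : 2 * Real.sqrt η * (Real.sqrt η)⁻¹ = 2 := by field_simp
      rw [h4]
      linear_combination hη
    have h5 : (0 : ℝ) ≤ Real.sqrt η + (Real.sqrt η)⁻¹ := by positivity
    have h6 : (0 : ℝ) ≤ ((d : ℝ) - 2) * Real.sqrt ((d : ℝ) + 1) := by positivity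
    exact (pow_left_inj₀ h5 h6 two_ne_zero).1 h1
  refine (mkIn hd4 ng hc hz).hasFid (ZMod.isPrimitive_stdAddChar d) ?_ ?_ sig ?_
  · show ((Real.sqrt η - (Real.sqrt η)⁻¹ : ℝ) : ℂ)
      = ((Real.sqrt η : ℝ) : ℂ) - ((Real.sqrt η : ℝ) : ℂ)⁻¹
    push_cast
    rfl
  · show ((Real.sqrt η : ℝ) : ℂ) + ((Real.sqrt η : ℝ) : ℂ)⁻¹
      = ((d : ℂ) - 2) * (Real.sqrt ((d : ℝ) + 1) : ℝ)
    have h7 : ((Real.sqrt η : ℝ) : ℂ) + ((Real.sqrt η : ℝ) : ℂ)⁻¹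
        = ((Real.sqrt η + (Real.sqrt η)⁻¹ : ℝ) : ℂ) := by push_cast; rfl
    rw [h7, hsum]
    push_cast
    rfl
  · intro k hk
    have h1 : io d k ≠ 0 := fun h => hk (io_inj (by rw [h, map_zero]))
    show ‖sig ((c (io d k) : ℂ) * z (io d k) / z 0)‖ = 1
    have h2 : (z (io d k) / z 0) ^ (2 * d) = 1 := by
      rw [pow_mul, div_pow, zio ng hz k,
        mul_div_cancel_left₀ _ (pow_ne_zero 2 (ng_z_ne ng 0)), ← AddChar.map_nsmul_eq_pow]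
      simp
    rw [mul_div_assoc, map_mul, norm_mul, hsig _ h1, one_mul]
    refine norm_of_pow_eq_one (n := 2 * d) (mul_ne_zero two_ne_zero (NeZero.ne d)) ?_
    rw [← map_pow, h2, map_one]

/-- From near group data to a ghost. -/
theorem hasGhost_of_NG (hd4 : 4 ≤ d) (ng : NG η (ps d) c z) (hc : ∀ x, c (LG d x) = c x)
    (hz : ∀ x, z (LG d x) = z x)
    (hη : η + η⁻¹ = ((d : ℝ) - 1) ^ 3 - 3 * ((d : ℝ) - 1)) : HasGhost d := by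
  classical
  have hη0 : 0 < η := lt_trans one_pos ng.one_lt
  have hsq := Real.sqrt_pos.2 hη0
  have hd2 : (0 : ℝ) < (d : ℝ) - 2 := by
    have : (4 : ℝ) ≤ d := by exact_mod_cast hd4
    linarith
  have hsum : Real.sqrt η + (Real.sqrt η)⁻¹ = ((d : ℝ) - 2) * Real.sqrt ((d : ℝ) + 1) := by
    have h1 : (Real.sqrt η + (Real.sqrt η)⁻¹) ^ 2 = (((d : ℝ) - 2) * Real.sqrt ((d : ℝ) + 1)) ^ 2 := by
      have h2 : Real.sqrt η ^ 2 = η := Real.sq_sqrt hη0.le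
      have h3 : Real.sqrt ((d : ℝ) + 1) ^ 2 = (d : ℝ) + 1 := Real.sq_sqrt (by positivity)
      rw [mul_pow, h3, add_sq, h2, inv_pow, h2]
      have h4 : 2 * Real.sqrt η * (Real.sqrt η)⁻¹ = 2 := by field_simp
      rw [h4]
      linear_combination hη
    have h5 : (0 : ℝ) ≤ Real.sqrt η + (Real.sqrt η)⁻¹ := by positivity
    have h6 : (0 : ℝ) ≤ ((d : ℝ) - 2) * Real.sqrt ((d : ℝ) + 1) := by positivity
    exact (pow_left_inj₀ h5 h6 two_ne_zero).1 h1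
  refine (mkIn hd4 ng hc hz).hasGhost (ZMod.isPrimitive_stdAddChar d) ?_ ?_
  · show ((Real.sqrt η - (Real.sqrt η)⁻¹ : ℝ) : ℂ)
      = ((Real.sqrt η : ℝ) : ℂ) - ((Real.sqrt η : ℝ) : ℂ)⁻¹
    push_cast
    rfl
  · show ((Real.sqrt η : ℝ) : ℂ) + ((Real.sqrt η : ℝ) : ℂ)⁻¹
      = ((d : ℂ) - 2) * (Real.sqrt ((d : ℝ) + 1) : ℝ)
    have h7 : ((Real.sqrt η : ℝ) : ℂ) + ((Real.sqrt η : ℝ) : ℂ)⁻¹
        = ((Real.sqrt η + (Real.sqrt η)⁻¹ : ℝ) : ℂ) := by push_cast; rfl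
    rw [h7, hsum]
    push_cast
    rfl

end abs

variable {d : ℕ} [NeZero d]

/-- **Near group data for `A0 ^ 3` and a field homomorphism give a fiducial vector.** -/
theorem hasFid_of_ng (hd4 : 4 ≤ d) {S : ℝ → ℝ → ℝ → ℝ} (hS : CS S) {θ : ℝ} (hθ1 : 1 < θ)
    (hθ : θ ^ 2 = ((d : ℝ) - 1) * θ - 1) [Fintype (Fx (A3 d) Zl)]
    (ng : NG (θ ^ 3) (fun x y : Fx (A3 d) Zl => psi (A3 d) Zl 1 (x : V ⧸ Zl) (y : V ⧸ Zl))
      (fun x => cL S θ (A3 d) Zl (x : V ⧸ Zl)) (fun x => zL θ (A3 d) Zl (x : V ⧸ Zl)))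
    (hz : ∀ x ∈ Fx (A3 d) Zl, zL θ (A3 d) Zl (q0 d x) = zL θ (A3 d) Zl x)
    (sig : ℂ →+* ℂ)
    (hsig : ∀ x : Fx (A3 d) Zl, x ≠ 0 → ‖sig ((cL S θ (A3 d) Zl (x : V ⧸ Zl) : ℝ) : ℂ)‖ = 1) :
    HasFid d := by
  have hθ0 : θ ≠ 0 := (lt_trans one_pos hθ1).ne'
  have h1 : θ + θ⁻¹ = (d : ℝ) - 1 := by
    field_simp
    linear_combination hθ
  refine hasFid_of_NG hd4 ng (fun x => cL_q0 hd4 hS hθ1 hθ x.2) (fun x => hz _ x.2) ?_ sig hsig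
  have h2 : (θ ^ 3) + (θ ^ 3)⁻¹ = (θ + θ⁻¹) ^ 3 - 3 * (θ + θ⁻¹) := by
    field_simp
    ring
  rw [h2, h1]

/-- **Near group data for `A0 ^ 3` give a ghost.** -/
theorem hasGhost_of_ng (hd4 : 4 ≤ d) {S : ℝ → ℝ → ℝ → ℝ} (hS : CS S) {θ : ℝ} (hθ1 : 1 < θ)
    (hθ : θ ^ 2 = ((d : ℝ) - 1) * θ - 1) [Fintype (Fx (A3 d) Zl)]
    (ng : NG (θ ^ 3) (fun x y : Fx (A3 d) Zl => psi (A3 d) Zl 1 (x : V ⧸ Zl) (y : V ⧸ Zl))
      (fun x => cL S θ (A3 d) Zl (x : V ⧸ Zl)) (fun x => zL θ (A3 d) Zl (x : V ⧸ Zl)))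
    (hz : ∀ x ∈ Fx (A3 d) Zl, zL θ (A3 d) Zl (q0 d x) = zL θ (A3 d) Zl x) :
    HasGhost d := by
  have hθ0 : θ ≠ 0 := (lt_trans one_pos hθ1).ne'
  have h1 : θ + θ⁻¹ = (d : ℝ) - 1 := by
    field_simp
    linear_combination hθ
  refine hasGhost_of_NG hd4 ng (fun x => cL_q0 hd4 hS hθ1 hθ x.2) (fun x => hz _ x.2) ?_
  have h2 : (θ ^ 3) + (θ ^ 3)⁻¹ = (θ + θ⁻¹) ^ 3 - 3 * (θ + θ⁻¹) := by
    field_simp
    ring
  rw [h2, h1]

end Pool.Agent.Lib.MP_d0f9e0_co.AV12
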