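import Pool.Agent.Lib.MP_d0f9e0_co.FN.Vec

/-!
# From a twisted convolution idempotent to a maximal equiangular tight frame

`Dat M d`: coefficients `a` of an idempotent `(1/d) * sum_k a(k) X^(k.1) Z^(k.2)` over a field `M`,
with `a(k) a(-k) = e(k.1 k.2) / (d + 1)`.  If a ring homomorphism `sig : M → ℂ` makes all
`a(k)`, `k ≠ 0`, of absolute value `1 / sqrt (d + 1)`, then there are `d ^ 2` equiangular unit
vectors in dimension `d`.
-/

set_option autoImplicit false

open scoped BigOperators ComplexConjugate Matrix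

namespace Pool.Agent.Lib.MP_d0f9e0_co.FN

/-- `d ^ 2` equiangular unit vectors in dimension `d`. -/
def HasETF (d : ℕ) : Prop :=
  ∃ v : Fin (d ^ 2) → EuclideanSpace ℂ (Fin d),
    (∀ i, ‖v i‖ = 1) ∧
    (∀ i j, i ≠ j → ‖inner ℂ (v i) (v j)‖ = 1 / Real.sqrt ((d : ℝ) + 1))

/-- Twisted convolution data over a field `M`. -/
structure Dat (M : Type*) [Field M] (d : ℕ) [NeZero d] where
  /-- a primitive additive character -/
  e : AddChar (ZMod d) M
  he : e.IsPrimitive
  /-- coefficients -/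
  a : ZMod d × ZMod d → M
  h0 : a 0 = 1
  hconv : ∀ l, ∑ k, a k * a (l - k) * e (k.2 * (l.1 - k.1)) = (d : M) * a l
  hinv : ∀ k, k ≠ 0 → a k * a (-k) * ((d : M) + 1) = e (k.1 * k.2)

variable {d : ℕ} [NeZero d]

/-- Image of the data under a ring homomorphism. -/
def Dat.map {M N : Type*} [Field M] [Field N] (D : Dat M d) (sig : M →+* N) : Dat N d where
  e := (sig : M →* N).compAddChar D.e
  he := by
    intro b hb h
    apply D.he hb
    ext x
    have := DFunLike.congr_fun h x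
    simp only [AddChar.mulShift_apply, MonoidHom.compAddChar_apply, AddChar.one_apply] at this ⊢
    apply sig.injective
    rw [map_one]
    exact this
  a k := sig (D.a k)
  h0 := by rw [D.h0, map_one]
  hconv l := by
    have := congrArg sig (D.hconv l)
    simpa [map_sum, map_mul] using this
  hinv k hk := by
    have := congrArg sig (D.hinv k hk)
    simpa [map_mul] using this

/-- The matrix of the data. -/
noncomputable def Dat.Q (D : Dat ℂ d) : Matrix (ZMod d) (ZMod d) ℂ :=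
  Matrix.of fun i j => (1 / (d : ℂ)) * ∑ b, D.a (i - j, b) * D.e (b * j)

theorem Dat.Q_apply (D : Dat ℂ d) (i j : ZMod d) :
    D.Q i j = (1 / (d : ℂ)) * ∑ b, D.a (i - j, b) * D.e (b * j) := rfl

theorem dC : (d : ℂ) ≠ 0 := by exact_mod_cast NeZero.ne d

theorem Dat.Q_mul (D : Dat ℂ d) : D.Q * D.Q = D.Q := by
  ext i j
  rw [Matrix.mul_apply]
  simp only [Dat.Q_apply]
  have key : ∑ m, (∑ b, D.a (i - m, b) * D.e (b * m)) * (∑ b, D.a (m - j, b) * D.e (b * j))
      = (d : ℂ) * ∑ c, D.a (i - j, c) * D.e (c * j) := by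
    rw [Finset.mul_sum]
    have h1 : ∀ c, (d : ℂ) * (D.a (i - j, c) * D.e (c * j))
        = ∑ k1, ∑ k2, D.a (k1, k2) * D.a (i - j - k1, c - k2) * D.e (k2 * (i - j - k1))
            * D.e (c * j) := fun c => by
      rw [← mul_assoc, ← D.hconv (i - j, c), Fintype.sum_prod_type, Finset.sum_mul]
      refine Finset.sum_congr rfl fun k1 _ => ?_
      rw [Finset.sum_mul]
      rfl
    rw [Finset.sum_congr rfl fun c _ => h1 c, Finset.sum_comm]
    conv_rhs => rw [← Equiv.sum_comp (Equiv.subLeft i)]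
    refine Finset.sum_congr rfl fun m _ => ?_
    rw [Finset.sum_comm, Finset.sum_mul_sum]
    refine Finset.sum_congr rfl fun b _ => ?_
    conv_rhs => rw [← Equiv.sum_comp (Equiv.addRight b)]
    refine Finset.sum_congr rfl fun b' _ => ?_
    simp only [Equiv.subLeft_apply, Equiv.coe_addRight, add_sub_cancel_right]
    have e1 : i - j - (i - m) = m - j := by abel
    rw [e1]
    have e2 : D.e (b * (m - j)) * D.e ((b' + b) * j) = D.e (b * m) * D.e (b' * j) := by
      rw [← AddChar.map_add_eq_mul, ← AddChar.map_add_eq_mul]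
      congr 1
      ring
    linear_combination (-(D.a (i - m, b) * D.a (m - j, b'))) * e2
  have h2 : ∀ m, (1 / (d : ℂ)) * (∑ b, D.a (i - m, b) * D.e (b * m))
      * ((1 / (d : ℂ)) * ∑ b, D.a (m - j, b) * D.e (b * j))
      = (1 / (d : ℂ)) * (1 / (d : ℂ)) * ((∑ b, D.a (i - m, b) * D.e (b * m))
        * (∑ b, D.a (m - j, b) * D.e (b * j))) := fun m => by ring
  rw [Finset.sum_congr rfl fun m _ => h2 m, ← Finset.mul_sum, key]
  have := dC (d := d)
  field_simp

theorem Dat.Q_trace (D : Dat ℂ d) : D.Q.trace = 1 := by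
  have h1 : D.Q.trace = (1 / (d : ℂ)) * ∑ b, D.a (0, b) * ∑ j, D.e (j * b) := by
    simp only [Matrix.trace, Matrix.diag_apply, Dat.Q_apply, sub_self]
    rw [← Finset.mul_sum, Finset.sum_comm]
    congr 1
    refine Finset.sum_congr rfl fun b _ => ?_
    rw [Finset.mul_sum]
    exact Finset.sum_congr rfl fun j _ => by rw [mul_comm b j]
  have h2 : ∀ b : ZMod d, ∑ j, D.e (j * b) = if b = 0 then (d : ℂ) else 0 := fun b => by
    rw [AddChar.sum_mulShift b D.he, ZMod.card]
    split_ifs <;> simp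
  rw [h1]
  simp only [h2, mul_ite, mul_zero, Finset.sum_ite_eq', Finset.mem_univ, if_true]
  have h3 : D.a (0, 0) = 1 := D.h0
  rw [h3]
  have := dC (d := d)
  field_simp

theorem Dat.conj_a (D : Dat ℂ d) (hN : ∀ k, k ≠ 0 → ‖D.a k‖ ^ 2 = 1 / ((d : ℝ) + 1))
    (k : ZMod d × ZMod d) : conj (D.a k) = D.a (-k) * D.e (-(k.1 * k.2)) := by
  by_cases hk : k = 0
  · subst hk
    rw [D.h0, neg_zero, D.h0]
    simp
  · have hd1 : ((d : ℂ) + 1) ≠ 0 := by
      have : ((d : ℝ) + 1) ≠ 0 := by positivity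
      exact_mod_cast this
    have h1 := D.hinv k hk
    have h2 : D.a k * conj (D.a k) * ((d : ℂ) + 1) = 1 := by
      rw [Complex.mul_conj, Complex.normSq_eq_norm_sq, hN k hk]
      push_cast
      field_simp
    have h3 : D.a k ≠ 0 := by
      intro h
      rw [h] at h2
      simp at h2
    have h4 : D.e (k.1 * k.2) * D.e (-(k.1 * k.2)) = 1 := by
      rw [← AddChar.map_add_eq_mul, add_neg_cancel, AddChar.map_zero_eq_one]
    have h5 : D.a k * ((d : ℂ) + 1) * conj (D.a k)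
        = D.a k * ((d : ℂ) + 1) * (D.a (-k) * D.e (-(k.1 * k.2))) := by
      linear_combination h2 - D.e (-(k.1 * k.2)) * h1 - h4
    exact mul_left_cancel₀ (mul_ne_zero h3 hd1) h5

theorem Dat.Q_herm (D : Dat ℂ d) (hN : ∀ k, k ≠ 0 → ‖D.a k‖ ^ 2 = 1 / ((d : ℝ) + 1)) :
    D.Qᴴ = D.Q := by
  ext i j
  rw [Matrix.conjTranspose_apply, ← starRingEnd_apply, Dat.Q_apply, Dat.Q_apply, map_mul, map_sum]
  have h1 : conj (1 / (d : ℂ)) = 1 / (d : ℂ) := by simp
  rw [h1]
  congr 1
  rw [← Equiv.sum_comp (Equiv.neg (ZMod d))]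
  refine Finset.sum_congr rfl fun b _ => ?_
  rw [map_mul, D.conj_a hN, ← AddChar.map_neg_eq_conj]
  have h2 : -((j - i, (Equiv.neg (ZMod d)) b) : ZMod d × ZMod d) = (i - j, b) := by
    ext <;> simp
  rw [h2, mul_assoc, ← AddChar.map_add_eq_mul]
  congr 2
  simp only [Equiv.neg_apply]
  ring

/-- The vectors of the orbit. -/
noncomputable def orb (e : AddChar (ZMod d) ℂ) (u : ZMod d → ℂ) (k : ZMod d × ZMod d) :
    ZMod d → ℂ := fun i => e (k.2 * (i - k.1)) * u (i - k.1)

theorem Dat.inner_orb (D : Dat ℂ d) (u : ZMod d → ℂ) (hu : ∀ i j, D.Q i j = u i * conj (u j))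
    (k l : ZMod d × ZMod d) :
    ∑ i, conj (orb D.e u k i) * orb D.e u l i = D.a (k - l) * D.e (l.2 * (k.1 - l.1)) := by
  have h1 : ∀ i, conj (orb D.e u k i) * orb D.e u l i
      = (1 / (d : ℂ)) * ∑ b, D.a (k.1 - l.1, b) * D.e (k.2 * k.1 - l.2 * l.1 - b * k.1)
          * D.e (i * (l.2 - k.2 + b)) := fun i => by
    have h2 : D.Q (i - l.1) (i - k.1) = u (i - l.1) * conj (u (i - k.1)) := hu _ _
    have h3 : conj (orb D.e u k i) * orb D.e u l i
        = D.e (-(k.2 * (i - k.1))) * D.e (l.2 * (i - l.1)) * D.Q (i - l.1) (i - k.1) := by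
      rw [h2]
      simp only [orb, map_mul, ← AddChar.map_neg_eq_conj]
      ring
    rw [h3, Dat.Q_apply]
    have h4 : i - l.1 - (i - k.1) = k.1 - l.1 := by abel
    rw [h4, Finset.mul_sum, Finset.mul_sum, Finset.mul_sum]
    refine Finset.sum_congr rfl fun b _ => ?_
    have h5 : D.e (-(k.2 * (i - k.1))) * D.e (l.2 * (i - l.1)) * D.e (b * (i - k.1))
        = D.e (k.2 * k.1 - l.2 * l.1 - b * k.1) * D.e (i * (l.2 - k.2 + b)) := by
      rw [← AddChar.map_add_eq_mul, ← AddChar.map_add_eq_mul, ← AddChar.map_add_eq_mul]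
      congr 1
      ring
    linear_combination (1 / (d : ℂ)) * D.a (k.1 - l.1, b) * h5
  rw [Finset.sum_congr rfl fun i _ => h1 i, ← Finset.mul_sum, Finset.sum_comm]
  have h6 : ∀ b : ZMod d, ∑ i, D.a (k.1 - l.1, b) * D.e (k.2 * k.1 - l.2 * l.1 - b * k.1)
      * D.e (i * (l.2 - k.2 + b))
      = if b = k.2 - l.2 then (d : ℂ) * (D.a (k - l) * D.e (l.2 * (k.1 - l.1))) else 0 :=
    fun b => by
    rw [← Finset.mul_sum, AddChar.sum_mulShift _ D.he, ZMod.card]
    by_cases hb : b = k.2 - l.2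
    · have hb' : l.2 - k.2 + b = 0 := by rw [hb]; abel
      rw [if_pos hb', if_pos hb, hb]
      have h7 : ((k.1 - l.1, k.2 - l.2) : ZMod d × ZMod d) = k - l := rfl
      have h8 : k.2 * k.1 - l.2 * l.1 - (k.2 - l.2) * k.1 = l.2 * (k.1 - l.1) := by ring
      rw [h7, h8]
      ring
    · have hb' : l.2 - k.2 + b ≠ 0 := fun h => hb (by linear_combination h)
      rw [if_neg hb', if_neg hb]
      simp
  rw [Finset.sum_congr rfl fun b _ => h6 b]
  simp only [Finset.sum_ite_eq', Finset.mem_univ, if_true]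
  have := dC (d := d)
  field_simp

/-- THE LAST LAYER over `ℂ`. -/
theorem Dat.hasETF (D : Dat ℂ d) (hN : ∀ k, k ≠ 0 → ‖D.a k‖ ^ 2 = 1 / ((d : ℝ) + 1)) :
    HasETF d := by
  classical
  obtain ⟨u, -, hu⟩ := exists_vec D.Q D.Q_mul (D.Q_herm hN) D.Q_trace
  have hcard : Fintype.card (ZMod d × ZMod d) = d ^ 2 := by
    rw [Fintype.card_prod, ZMod.card, sq]
  let f : Fin (d ^ 2) ≃ ZMod d × ZMod d := (Fintype.equivFinOfCardEq hcard).symm
  let g : Fin d ≃ ZMod d := (Fintype.equivFinOfCardEq (ZMod.card d)).symm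
  have hin : ∀ i j, inner ℂ (WithLp.toLp 2 fun t => orb D.e u (f i) (g t) :
        EuclideanSpace ℂ (Fin d)) (WithLp.toLp 2 fun t => orb D.e u (f j) (g t))
      = D.a (f i - f j) * D.e ((f j).2 * ((f i).1 - (f j).1)) := fun i j => by
    rw [← D.inner_orb u hu, ← Equiv.sum_comp g, PiLp.inner_apply]
    refine Finset.sum_congr rfl fun t _ => ?_
    simp only [RCLike.inner_apply]
    ring
  have hnorm : ∀ x : ZMod d, ‖D.e x‖ = 1 := fun x => AddChar.norm_apply D.e x
  refine ⟨fun i => WithLp.toLp 2 fun t => orb D.e u (f i) (g t), fun i => ?_, fun i j hij => ?_⟩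
  · have h1 := hin i i
    rw [sub_self, D.h0, sub_self, mul_zero, AddChar.map_zero_eq_one, mul_one,
      inner_self_eq_norm_sq_to_K] at h1
    have h2 : ‖(WithLp.toLp 2 fun t => orb D.e u (f i) (g t) : EuclideanSpace ℂ (Fin d))‖ ^ 2
        = 1 := by
      apply Complex.ofReal_injective
      rw [Complex.ofReal_pow, Complex.ofReal_one]
      exact h1
    have h3 := norm_nonneg (WithLp.toLp 2 fun t => orb D.e u (f i) (g t) :
      EuclideanSpace ℂ (Fin d))
    nlinarith [sq_nonneg (‖(WithLp.toLp 2 fun t => orb D.e u (f i) (g t) :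
      EuclideanSpace ℂ (Fin d))‖ - 1)]
  · rw [hin i j, norm_mul, hnorm, mul_one]
    have hne : f i - f j ≠ 0 := fun h => hij (f.injective (sub_eq_zero.mp h))
    have h1 := hN _ hne
    have h2 : (0 : ℝ) < (d : ℝ) + 1 := by positivity
    have h3 : (1 / Real.sqrt ((d : ℝ) + 1)) ^ 2 = 1 / ((d : ℝ) + 1) := by
      rw [div_pow, Real.sq_sqrt h2.le, one_pow]
    exact (sq_eq_sq₀ (norm_nonneg _) (by positivity)).mp (h1.trans h3.symm)

/-- THE LAST LAYER with a field `M` and a homomorphism to `ℂ`. -/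
theorem Dat.hasETF_of_hom {M : Type*} [Field M] (D : Dat M d) (sig : M →+* ℂ)
    (hN : ∀ k, k ≠ 0 → ‖sig (D.a k)‖ ^ 2 = 1 / ((d : ℝ) + 1)) : HasETF d :=
  (D.map sig).hasETF hN

end Pool.Agent.Lib.MP_d0f9e0_co.FN
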