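import Pool.Agent.Lib.MP_d0f9e0_co.FN.Fid

/-!
# The orbit of a fiducial vector under the shift and clock matrices
-/

set_option autoImplicit false

open scoped BigOperators ComplexConjugate Matrix

namespace Pool.Agent.Lib.MP_d0f9e0_co.FN

variable {d : ℕ} [NeZero d]

/-- The norms of the inner products of the orbit vectors. -/
theorem orb_norm (u : ZMod d → ℂ)
    (hu : ∀ a b : ZMod d, ¬ (a = 0 ∧ b = 0) →
      ‖∑ i, conj (u i) * (ZMod.stdAddChar (N := d) (b * (i - a)) * u (i - a))‖ ^ 2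
        = 1 / ((d : ℝ) + 1)) {k l : ZMod d × ZMod d} (hkl : k ≠ l) :
    ‖∑ i, conj (orb (ZMod.stdAddChar (N := d)) u k i) * orb (ZMod.stdAddChar (N := d)) u l i‖
      = 1 / Real.sqrt ((d : ℝ) + 1) := by
  set e := ZMod.stdAddChar (N := d) with he
  have hnorm : ∀ x : ZMod d, ‖e x‖ = 1 := fun x => AddChar.norm_apply e x
  have h1 : ∑ i, conj (orb e u k i) * orb e u l i
      = e (l.2 * (k.1 - l.1)) * ∑ i, conj (u i) * (e ((l.2 - k.2) * (i - (l.1 - k.1)))
          * u (i - (l.1 - k.1))) * e ((l.2 - k.2) * (l.1 - k.1)) := by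
    rw [Finset.mul_sum, ← Equiv.sum_comp (Equiv.addRight k.1)]
    refine Finset.sum_congr rfl fun i _ => ?_
    have e1 : i + k.1 - k.1 = i := by abel
    have e2 : i + k.1 - l.1 = i - (l.1 - k.1) := by abel
    simp only [orb, Equiv.coe_addRight, e1, e2, map_mul]
    rw [← AddChar.map_neg_eq_conj]
    have h2 : e (-(k.2 * i)) * e (l.2 * (i - (l.1 - k.1)))
        = e (l.2 * (k.1 - l.1)) * e ((l.2 - k.2) * (i - (l.1 - k.1)))
          * e ((l.2 - k.2) * (l.1 - k.1)) := by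
      rw [← AddChar.map_add_eq_mul, ← AddChar.map_add_eq_mul, ← AddChar.map_add_eq_mul]
      congr 1
      ring
    linear_combination (conj (u i) * u (i - (l.1 - k.1))) * h2
  have h3 : ‖∑ i, conj (orb e u k i) * orb e u l i‖ ^ 2 = 1 / ((d : ℝ) + 1) := by
    rw [h1, ← Finset.sum_mul, norm_mul, norm_mul, hnorm, hnorm, one_mul, mul_one]
    refine hu _ _ fun hab => hkl ?_
    ext
    · exact (sub_eq_zero.mp hab.1).symm
    · exact (sub_eq_zero.mp hab.2).symm
  have h4 : (0 : ℝ) < (d : ℝ) + 1 := by positivity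
  have h5 : (1 / Real.sqrt ((d : ℝ) + 1)) ^ 2 = 1 / ((d : ℝ) + 1) := by
    rw [div_pow, Real.sq_sqrt h4.le, one_pow]
  exact (sq_eq_sq₀ (norm_nonneg _) (by positivity)).mp (h3.trans h5.symm)

/-- The components of the orbit vector `X ^ a * Z ^ b * psi`. -/
theorem toLin_apply (a b : ℕ) (u : ZMod d → ℂ) (i : ZMod d) :
    (Matrix.toEuclideanLin (shiftM d ^ a * clockM d ^ b) (WithLp.toLp 2 u)) i
      = orb (ZMod.stdAddChar (N := d)) u ((a : ZMod d), (b : ZMod d)) i := by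
  have h := weyl_mulVec (d := d) a b u i
  exact h

theorem cast_inj {a b : Fin d} (h : ((a : ℕ) : ZMod d) = ((b : ℕ) : ZMod d)) : a = b := by
  have h1 := (ZMod.natCast_eq_natCast_iff' _ _ _).mp h
  rw [Nat.mod_eq_of_lt a.isLt, Nat.mod_eq_of_lt b.isLt] at h1
  exact Fin.ext h1

/-- **The covariant maximal equiangular tight frame** of a fiducial vector. -/
theorem HasFid.orbit (h : HasFid d) :
    ∃ psi : EuclideanSpace ℂ (ZMod d),
      (∀ k : Fin d × Fin d,
        ‖Matrix.toEuclideanLin (shiftM d ^ (k.1 : ℕ) * clockM d ^ (k.2 : ℕ)) psi‖ = 1) ∧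
      ∀ k l : Fin d × Fin d, k ≠ l →
        ‖inner ℂ (Matrix.toEuclideanLin (shiftM d ^ (k.1 : ℕ) * clockM d ^ (k.2 : ℕ)) psi)
          (Matrix.toEuclideanLin (shiftM d ^ (l.1 : ℕ) * clockM d ^ (l.2 : ℕ)) psi)‖
          = 1 / Real.sqrt ((d : ℝ) + 1) := by
  obtain ⟨u, hu1, hu⟩ := h
  refine ⟨WithLp.toLp 2 u, fun k => ?_, fun k l hkl => ?_⟩
  · rw [EuclideanSpace.norm_eq]
    have h1 : ∑ i, ‖(Matrix.toEuclideanLin (shiftM d ^ (k.1 : ℕ) * clockM d ^ (k.2 : ℕ))
        (WithLp.toLp 2 u)) i‖ ^ 2 = 1 := by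
      rw [← hu1, ← Equiv.sum_comp (Equiv.subRight ((k.1 : ℕ) : ZMod d)) fun x => ‖u x‖ ^ 2]
      refine Finset.sum_congr rfl fun i _ => ?_
      rw [toLin_apply]
      simp only [orb, norm_mul, AddChar.norm_apply, one_mul, Equiv.subRight_apply]
    rw [h1, Real.sqrt_one]
  · have h1 : inner ℂ
        (Matrix.toEuclideanLin (shiftM d ^ (k.1 : ℕ) * clockM d ^ (k.2 : ℕ)) (WithLp.toLp 2 u))
        (Matrix.toEuclideanLin (shiftM d ^ (l.1 : ℕ) * clockM d ^ (l.2 : ℕ)) (WithLp.toLp 2 u))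
        = ∑ i, conj (orb (ZMod.stdAddChar (N := d)) u
            (((k.1 : ℕ) : ZMod d), ((k.2 : ℕ) : ZMod d)) i)
          * orb (ZMod.stdAddChar (N := d)) u (((l.1 : ℕ) : ZMod d), ((l.2 : ℕ) : ZMod d)) i := by
      rw [PiLp.inner_apply]
      refine Finset.sum_congr rfl fun i _ => ?_
      rw [RCLike.inner_apply, toLin_apply, toLin_apply, mul_comm]
    rw [h1]
    refine orb_norm u hu fun hkl' => hkl ?_
    have h2 := congrArg Prod.fst hkl'
    have h3 := congrArg Prod.snd hkl'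
    exact Prod.ext (cast_inj h2) (cast_inj h3)

end Pool.Agent.Lib.MP_d0f9e0_co.FN
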