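import Pool.Agent.Lib.MP_d0f9e0_co.FN.Core

/-!
# The ghost version: rank one idempotents with constant pairwise traces

From `Dat ℂ d` (no absolute value condition) we get `d ^ 2` idempotents `P k`, of rank one, with
`trace (P k * P l) = 1 / (d + 1)` for `k ≠ l`.
-/

set_option autoImplicit false

open scoped BigOperators ComplexConjugate Matrix

namespace Pool.Agent.Lib.MP_d0f9e0_co.FN

/-- An idempotent complex matrix of trace one has rank one. -/
theorem rank_of_idem {n : Type*} [Fintype n] [DecidableEq n] (P : Matrix n n ℂ)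
    (hP : P * P = P) (ht : P.trace = 1) : P.rank = 1 := by
  have h1 : IsIdempotentElem (Matrix.toLin' P) := by
    unfold IsIdempotentElem
    rw [Module.End.mul_eq_comp, ← Matrix.toLin'_mul, hP]
  have h2 := (LinearMap.isProj_range_iff_isIdempotentElem _).mpr h1 |>.trace
  rw [Matrix.trace_toLin'_eq, ht] at h2
  have h3 : P.rank = Module.finrank ℂ (LinearMap.range (Matrix.toLin' P)) := by
    rw [Matrix.rank, Matrix.toLin'_apply']
  rw [h3]
  exact_mod_cast h2.symm

variable {d : ℕ} [NeZero d]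

/-- The conjugate of the idempotent by the Weyl operator `k`. -/
noncomputable def Dat.P (D : Dat ℂ d) (k : ZMod d × ZMod d) : Matrix (ZMod d) (ZMod d) ℂ :=
  Matrix.of fun i j => D.e (k.2 * (i - j)) * D.Q (i - k.1) (j - k.1)

theorem Dat.P_apply (D : Dat ℂ d) (k : ZMod d × ZMod d) (i j : ZMod d) :
    D.P k i j = D.e (k.2 * (i - j)) * D.Q (i - k.1) (j - k.1) := rfl

theorem Dat.P_mul (D : Dat ℂ d) (k : ZMod d × ZMod d) : D.P k * D.P k = D.P k := by
  ext i j
  rw [Matrix.mul_apply]
  have h1 : ∀ m, D.P k i m * D.P k m j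
      = D.e (k.2 * (i - j)) * (D.Q (i - k.1) (m - k.1) * D.Q (m - k.1) (j - k.1)) := fun m => by
    rw [Dat.P_apply, Dat.P_apply]
    have h2 : D.e (k.2 * (i - m)) * D.e (k.2 * (m - j)) = D.e (k.2 * (i - j)) := by
      rw [← AddChar.map_add_eq_mul]
      congr 1
      ring
    linear_combination (D.Q (i - k.1) (m - k.1) * D.Q (m - k.1) (j - k.1)) * h2
  rw [Finset.sum_congr rfl fun m _ => h1 m, ← Finset.mul_sum, Dat.P_apply]
  congr 1
  have h3 := congrFun (congrFun D.Q_mul (i - k.1)) (j - k.1)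
  rw [Matrix.mul_apply] at h3
  rw [← h3]
  exact Equiv.sum_comp (Equiv.subRight k.1) fun m => D.Q (i - k.1) m * D.Q m (j - k.1)

theorem Dat.P_trace (D : Dat ℂ d) (k : ZMod d × ZMod d) : (D.P k).trace = 1 := by
  rw [← D.Q_trace]
  simp only [Matrix.trace, Matrix.diag_apply, Dat.P_apply, sub_self, mul_zero,
    AddChar.map_zero_eq_one, one_mul]
  exact Equiv.sum_comp (Equiv.subRight k.1) fun m => D.Q m m

theorem Dat.P_trace_mul (D : Dat ℂ d) {k l : ZMod d × ZMod d} (hkl : k ≠ l) :
    (D.P k * D.P l).trace = 1 / ((d : ℂ) + 1) := by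
  have hd := dC (d := d)
  have hd1 : ((d : ℂ) + 1) ≠ 0 := by
    have : ((d : ℝ) + 1) ≠ 0 := by positivity
    exact_mod_cast this
  have hA : ∀ t : ZMod d, ∑ x : ZMod d, D.e (x * t) = if t = 0 then (d : ℂ) else 0 := fun t => by
    rw [AddChar.sum_mulShift _ D.he, ZMod.card]
    split_ifs <;> simp
  -- the trace as a sum over three variables
  have h1 : (D.P k * D.P l).trace
      = (1 / (d : ℂ)) ^ 2 * ∑ t, ∑ b, ∑ b', ∑ j, D.a (t, b) * D.a (-t, b')
          * D.e ((k.2 - l.2) * t - b * k.1 - b' * l.1 + b' * t) * D.e (j * (b + b')) := by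
    have h2 : (D.P k * D.P l).trace = ∑ t, ∑ j, D.P k (j + t) j * D.P l j (j + t) := by
      simp only [Matrix.trace, Matrix.diag_apply, Matrix.mul_apply]
      rw [Finset.sum_comm]
      conv_rhs => rw [Finset.sum_comm]
      refine Finset.sum_congr rfl fun j _ => ?_
      exact (Equiv.sum_comp (Equiv.addLeft j) fun i => D.P k i j * D.P l j i).symm
    rw [h2, Finset.mul_sum]
    refine Finset.sum_congr rfl fun t _ => ?_
    have h3 : ∀ j, D.P k (j + t) j * D.P l j (j + t)
        = (1 / (d : ℂ)) ^ 2 * ∑ b, ∑ b', D.a (t, b) * D.a (-t, b')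
          * D.e ((k.2 - l.2) * t - b * k.1 - b' * l.1 + b' * t) * D.e (j * (b + b')) := fun j => by
      rw [Dat.P_apply, Dat.P_apply, Dat.Q_apply, Dat.Q_apply]
      have e1 : j + t - k.1 - (j - k.1) = t := by abel
      have e2 : j - l.1 - (j + t - l.1) = -t := by abel
      have e3 : j + t - j = t := by abel
      have e4 : j - (j + t) = -t := by abel
      rw [e1, e2, e3, e4]
      have h4 : D.e (k.2 * t) * (1 / (d : ℂ) * ∑ b, D.a (t, b) * D.e (b * (j - k.1)))
          * (D.e (l.2 * -t) * (1 / (d : ℂ) * ∑ b, D.a (-t, b) * D.e (b * (j + t - l.1))))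
          = (1 / (d : ℂ)) ^ 2 * (D.e (k.2 * t) * D.e (l.2 * -t)
            * ((∑ b, D.a (t, b) * D.e (b * (j - k.1)))
              * ∑ b, D.a (-t, b) * D.e (b * (j + t - l.1)))) := by ring
      rw [h4, Finset.sum_mul_sum, Finset.mul_sum]
      congr 1
      refine Finset.sum_congr rfl fun b _ => ?_
      rw [Finset.mul_sum]
      refine Finset.sum_congr rfl fun b' _ => ?_
      have h5 : D.e (k.2 * t) * D.e (l.2 * -t) * D.e (b * (j - k.1)) * D.e (b' * (j + t - l.1))
          = D.e ((k.2 - l.2) * t - b * k.1 - b' * l.1 + b' * t) * D.e (j * (b + b')) := by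
        rw [← AddChar.map_add_eq_mul, ← AddChar.map_add_eq_mul, ← AddChar.map_add_eq_mul,
          ← AddChar.map_add_eq_mul]
        congr 1
        ring
      linear_combination (D.a (t, b) * D.a (-t, b')) * h5
    rw [Finset.sum_congr rfl fun j _ => h3 j, ← Finset.mul_sum, Finset.sum_comm]
    congr 1
    refine Finset.sum_congr rfl fun b _ => ?_
    rw [Finset.sum_comm]
  have h6 : ∀ t b b', ∑ j, D.a (t, b) * D.a (-t, b')
      * D.e ((k.2 - l.2) * t - b * k.1 - b' * l.1 + b' * t) * D.e (j * (b + b'))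
      = if b' = -b then (d : ℂ) * (D.a (t, b) * D.a (-t, -b)
          * D.e ((k.2 - l.2) * t - b * (k.1 - l.1) - b * t)) else 0 := fun t b b' => by
    rw [← Finset.mul_sum, hA]
    by_cases hb : b' = -b
    · have hb' : b + b' = 0 := by rw [hb]; abel
      rw [if_pos hb', if_pos hb, hb]
      have h7 : (k.2 - l.2) * t - b * k.1 - -b * l.1 + -b * t
          = (k.2 - l.2) * t - b * (k.1 - l.1) - b * t := by ring
      rw [h7]
      ring
    · have hb' : b + b' ≠ 0 := fun h => hb (by linear_combination h)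
      rw [if_neg hb', if_neg hb, mul_zero]
  have h8 : (D.P k * D.P l).trace
      = (1 / (d : ℂ)) * ∑ x : ZMod d × ZMod d, D.a x * D.a (-x)
          * D.e ((k.2 - l.2) * x.1 - x.2 * (k.1 - l.1) - x.2 * x.1) := by
    rw [h1, Fintype.sum_prod_type, Finset.mul_sum, Finset.mul_sum]
    refine Finset.sum_congr rfl fun t _ => ?_
    rw [Finset.mul_sum, Finset.mul_sum]
    refine Finset.sum_congr rfl fun b _ => ?_
    rw [Finset.sum_congr rfl fun b' _ => h6 t b b', Finset.sum_ite_eq', if_pos (Finset.mem_univ _)]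
    have h9 : D.a (-(t, b)) = D.a (-t, -b) := rfl
    rw [h9]
    field_simp
  -- use `hinv`
  have h10 : ∀ x : ZMod d × ZMod d, D.a x * D.a (-x)
      * D.e ((k.2 - l.2) * x.1 - x.2 * (k.1 - l.1) - x.2 * x.1)
      = (1 / ((d : ℂ) + 1)) * (D.e (x.1 * (k.2 - l.2)) * D.e (x.2 * (l.1 - k.1)))
        + if x = 0 then (d : ℂ) / ((d : ℂ) + 1) else 0 := fun x => by
    by_cases hx : x = 0
    · subst hx
      rw [if_pos rfl, neg_zero, D.h0]
      simp only [Prod.fst_zero, Prod.snd_zero, mul_zero, zero_mul, sub_zero,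
        AddChar.map_zero_eq_one]
      field_simp
      ring
    · rw [if_neg hx, add_zero]
      have h11 := D.hinv x hx
      have h12 : D.a x * D.a (-x) = D.e (x.1 * x.2) / ((d : ℂ) + 1) := by
        rw [eq_div_iff hd1, h11]
      have h13 : D.e (x.1 * x.2) * D.e ((k.2 - l.2) * x.1 - x.2 * (k.1 - l.1) - x.2 * x.1)
          = D.e (x.1 * (k.2 - l.2)) * D.e (x.2 * (l.1 - k.1)) := by
        rw [← AddChar.map_add_eq_mul, ← AddChar.map_add_eq_mul]
        congr 1
        ring
      rw [h12, ← h13]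
      ring
  have h14 : ∑ x : ZMod d × ZMod d, D.e (x.1 * (k.2 - l.2)) * D.e (x.2 * (l.1 - k.1)) = 0 := by
    have h15 : ∑ x : ZMod d × ZMod d, D.e (x.1 * (k.2 - l.2)) * D.e (x.2 * (l.1 - k.1))
        = (∑ x : ZMod d, D.e (x * (k.2 - l.2))) * ∑ y : ZMod d, D.e (y * (l.1 - k.1)) := by
      rw [Fintype.sum_prod_type, Finset.sum_mul]
      refine Finset.sum_congr rfl fun x _ => ?_
      rw [Finset.mul_sum]
    rw [h15, hA, hA]
    by_cases h2 : k.2 - l.2 = 0
    · by_cases h3 : l.1 - k.1 = 0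
      · exfalso
        exact hkl (Prod.ext (sub_eq_zero.mp h3).symm (sub_eq_zero.mp h2))
      · rw [if_neg h3, mul_zero]
    · rw [if_neg h2, zero_mul]
  rw [h8, Finset.sum_congr rfl fun x _ => h10 x, Finset.sum_add_distrib, ← Finset.mul_sum, h14,
    mul_zero, zero_add, Finset.sum_ite_eq', if_pos (Finset.mem_univ _)]
  field_simp

/-- `d ^ 2` idempotents of rank one with all traces of products equal to `1 / (d + 1)`. -/
def HasGhost (d : ℕ) : Prop :=
  ∃ P : Fin (d ^ 2) → Matrix (Fin d) (Fin d) ℂ,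
    (∀ i, P i * P i = P i) ∧ (∀ i, (P i).rank = 1) ∧
    (∀ i j, i ≠ j → (P i * P j).trace = 1 / ((d : ℂ) + 1))

theorem Dat.hasGhost (D : Dat ℂ d) : HasGhost d := by
  classical
  have hcard : Fintype.card (ZMod d × ZMod d) = d ^ 2 := by
    rw [Fintype.card_prod, ZMod.card, sq]
  let f : Fin (d ^ 2) ≃ ZMod d × ZMod d := (Fintype.equivFinOfCardEq hcard).symm
  let g : Fin d ≃ ZMod d := (Fintype.equivFinOfCardEq (ZMod.card d)).symm
  have hmul : ∀ A B : Matrix (ZMod d) (ZMod d) ℂ,
      A.submatrix g g * B.submatrix g g = (A * B).submatrix g g := fun A B =>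
    Matrix.submatrix_mul_equiv A B g g g
  have htr : ∀ A : Matrix (ZMod d) (ZMod d) ℂ, (A.submatrix g g).trace = A.trace := fun A => by
    simp only [Matrix.trace, Matrix.diag_apply, Matrix.submatrix_apply]
    exact Equiv.sum_comp g fun i => A i i
  have hid : ∀ i, (D.P (f i)).submatrix g g * (D.P (f i)).submatrix g g
      = (D.P (f i)).submatrix g g := fun i => by rw [hmul, D.P_mul]
  refine ⟨fun i => (D.P (f i)).submatrix g g, hid, fun i => ?_, fun i j hij => ?_⟩
  · exact rank_of_idem _ (hid i) (by rw [htr, D.P_trace])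
  · change ((D.P (f i)).submatrix g g * (D.P (f j)).submatrix g g).trace = _
    rw [hmul, htr, D.P_trace_mul fun h => hij (f.injective h)]

end Pool.Agent.Lib.MP_d0f9e0_co.FN
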