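import Mathlib

/-!
# Rank one from trace one

A Hermitian idempotent complex matrix of trace one has the form `u u^*` for a unit vector `u`.
-/

set_option autoImplicit false

open scoped BigOperators ComplexConjugate Matrix ComplexOrder

namespace Pool.Agent.Lib.MP_d0f9e0_co.FN

variable {n : Type*} [Fintype n]

/-- A Hermitian idempotent of trace one is the projection on the line of a unit vector. -/
theorem exists_vec (Q : Matrix n n ℂ) (hQ : Q * Q = Q) (hH : Qᴴ = Q) (ht : Q.trace = 1) :
    ∃ u : n → ℂ, (∑ i, ‖u i‖ ^ 2 = 1) ∧ ∀ i j, Q i j = u i * conj (u j) := by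
  classical
  have hsym : ∀ i j, conj (Q i j) = Q j i := fun i j => by
    have := congrFun (congrFun hH j) i
    simpa [Matrix.conjTranspose_apply] using this
  obtain ⟨j, hj⟩ : ∃ j, Q j j ≠ 0 := by
    by_contra hcon
    push Not at hcon
    have : Q.trace = 0 := by simp [Matrix.trace, hcon]
    rw [this] at ht
    exact zero_ne_one ht
  have hcol : Q j j = ((∑ i, ‖Q i j‖ ^ 2 : ℝ) : ℂ) := by
    have h1 := congrFun (congrFun hQ j) j
    rw [Matrix.mul_apply] at h1
    rw [← h1]
    push_cast
    refine Finset.sum_congr rfl fun i _ => ?_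
    rw [← hsym i j, mul_comm, Complex.mul_conj, Complex.normSq_eq_norm_sq]
    push_cast
    ring
  set q : ℝ := ∑ i, ‖Q i j‖ ^ 2 with hq
  have hq0 : 0 < q := by
    have h0 : 0 ≤ q := Finset.sum_nonneg fun i _ => by positivity
    rcases h0.lt_or_eq with h | h
    · exact h
    · exfalso
      apply hj
      rw [hcol, ← h]
      simp
  have hs : (Real.sqrt q) ^ 2 = q := Real.sq_sqrt hq0.le
  have hs0 : Real.sqrt q ≠ 0 := (Real.sqrt_pos.mpr hq0).ne'
  let u : n → ℂ := fun i => Q i j / (Real.sqrt q : ℂ)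
  have hu1 : ∑ i, ‖u i‖ ^ 2 = 1 := by
    have : ∀ i, ‖u i‖ ^ 2 = ‖Q i j‖ ^ 2 / q := fun i => by
      simp only [u, norm_div, Complex.norm_real, Real.norm_eq_abs, div_pow, sq_abs, hs]
    rw [Finset.sum_congr rfl fun i _ => this i, ← Finset.sum_div, ← hq, div_self hq0.ne']
  have hQu : ∀ i, ∑ k, Q i k * u k = u i := fun i => by
    have h1 := congrFun (congrFun hQ i) j
    rw [Matrix.mul_apply] at h1
    simp only [u, ← mul_div_assoc]
    rw [← Finset.sum_div, h1]
  have huu : ∑ k, conj (u k) * u k = 1 := by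
    have : ∀ k, conj (u k) * u k = ((‖u k‖ ^ 2 : ℝ) : ℂ) := fun k => by
      rw [mul_comm, Complex.mul_conj, Complex.normSq_eq_norm_sq]
    rw [Finset.sum_congr rfl fun k _ => this k, ← Complex.ofReal_sum, hu1, Complex.ofReal_one]
  have hQu' : ∀ i, ∑ k, conj (u k) * Q k i = conj (u i) := fun i => by
    rw [← hQu i, map_sum]
    refine Finset.sum_congr rfl fun k _ => ?_
    rw [map_mul, hsym, mul_comm]
  let R : Matrix n n ℂ := Matrix.of fun i k => Q i k - u i * conj (u k)
  have hR : ∀ i k, R i k = Q i k - u i * conj (u k) := fun i k => rfl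
  have hRH : Rᴴ = R := by
    ext i k
    rw [Matrix.conjTranspose_apply, hR, hR, ← starRingEnd_apply, map_sub, map_mul, hsym,
      Complex.conj_conj]
    ring
  have hRR : R * R = R := by
    ext i k
    rw [Matrix.mul_apply]
    have h1 := congrFun (congrFun hQ i) k
    rw [Matrix.mul_apply] at h1
    have : ∀ l, R i l * R l k
        = Q i l * Q l k - (Q i l * u l) * conj (u k) - u i * (conj (u l) * Q l k)
          + u i * (conj (u l) * u l) * conj (u k) := fun l => by
      rw [hR, hR]; ring
    rw [Finset.sum_congr rfl fun l _ => this l, Finset.sum_add_distrib, Finset.sum_sub_distrib,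
      Finset.sum_sub_distrib, h1, ← Finset.sum_mul, hQu, ← Finset.mul_sum, hQu',
      ← Finset.sum_mul, ← Finset.mul_sum, huu, hR]
    ring
  have hRt : (Rᴴ * R).trace = 0 := by
    rw [hRH, hRR]
    have h2 : R.trace = Q.trace - ∑ k, conj (u k) * u k := by
      simp only [Matrix.trace, Matrix.diag_apply, hR, Finset.sum_sub_distrib]
      congr 1
      exact Finset.sum_congr rfl fun k _ => mul_comm _ _
    rw [h2, ht, huu, sub_self]
  have hR0 : R = 0 := Matrix.trace_conjTranspose_mul_self_eq_zero_iff.mp hRt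
  refine ⟨u, hu1, fun i k => ?_⟩
  have h3 := congrFun (congrFun hR0 i) k
  rw [hR, Matrix.zero_apply] at h3
  exact sub_eq_zero.mp h3

end Pool.Agent.Lib.MP_d0f9e0_co.FN
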